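import Pool.Agent.Helper49.NF.Goals

set_option autoImplicit false

namespace Pool.Agent.Helper31.NF

open Finset
open Pool.Agent.Helper49.NF

theorem two_pow_le_centralBinom (b : ℕ) : 2 ^ b ≤ Nat.centralBinom b := by
  induction b with
  | zero => simp
  | succ b ih =>
    have h := Nat.succ_mul_centralBinom_succ b
    have h2 : (b + 1) * (2 * Nat.centralBinom b) ≤ (b + 1) * Nat.centralBinom (b + 1) := by
      rw [h]
      nlinarith [Nat.zero_le (b * Nat.centralBinom b)]
    have h3 := Nat.le_of_mul_le_mul_left h2 (Nat.succ_pos b)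
    rw [pow_succ]
    omega

theorem two_pow_le_choose {a b : ℕ} (h : 2 * b ≤ a) : 2 ^ b ≤ a.choose b := by
  refine (two_pow_le_centralBinom b).trans ?_
  rw [Nat.centralBinom_eq_two_mul_choose]
  exact Nat.choose_le_choose b h

theorem goal_N2H (hX : Goal_N2X) : Goal_N2H := by
  obtain ⟨n₀, hn₀⟩ := hX
  refine ⟨n₀, fun n hn m K f h1 h2 h3 h4 h5 => ?_⟩
  have hs := (hn₀ n hn m K f 0 h1 h3 h4 h5 (Nat.zero_le _)).1
  obtain ⟨_, t, ht, ht2⟩ := hn₀ n hn m K f 2 h1 h3 h4 h5 (by omega)
  unfold Bb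
  have e1 : n * (4 ^ f * (K * n) ^ (2 + 1) * (n + 1) ^ 2) ≤ 2 ^ t := by
    refine le_trans ?_ ht
    refine Nat.mul_le_mul_right _ ?_
    omega
  have e2 : 2 ^ t ≤ (n - n / 2).choose (m - m / 2) := by
    refine le_trans (Nat.pow_le_pow_right (by norm_num) ?_)
      (two_pow_le_choose (a := n - n / 2) (b := m - m / 2) (by omega))
    omega
  have e3 : (n / 2).choose (m / 2) * (n - n / 2).choose (m - m / 2) ≤ n.choose m := by
    have h := Nat.add_choose_eq (n / 2) (n - n / 2) m
    have e : n / 2 + (n - n / 2) = n := by omega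
    rw [e] at h
    rw [h]
    have hm : (m / 2, m - m / 2) ∈ Finset.HasAntidiagonal.antidiagonal m := by
      rw [Finset.HasAntidiagonal.mem_antidiagonal]
      simp only
      omega
    exact Finset.single_le_sum (f := fun ij : ℕ × ℕ => (n / 2).choose ij.1 * (n - n / 2).choose ij.2)
      (fun _ _ => Nat.zero_le _) hm
  calc n * (4 ^ f * (K * n) ^ (2 + 1) * (n + 1) ^ 2 * (n / 2).choose (m / 2))
      = (n * (4 ^ f * (K * n) ^ (2 + 1) * (n + 1) ^ 2)) * (n / 2).choose (m / 2) := by ring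
    _ ≤ 2 ^ t * (n / 2).choose (m / 2) := Nat.mul_le_mul_right _ e1
    _ ≤ (n - n / 2).choose (m - m / 2) * (n / 2).choose (m / 2) := Nat.mul_le_mul_right _ e2
    _ = (n / 2).choose (m / 2) * (n - n / 2).choose (m - m / 2) := Nat.mul_comm _ _
    _ ≤ n.choose m := e3
    _ ≤ 2 * n.choose m := by omega

end Pool.Agent.Helper31.NF
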