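import Pool.Agent.Helper49.NF.Goals

set_option autoImplicit false

namespace Pool.Agent.Helper31.NF

open Finset
open Pool.Agent.Helper49.NF
open Pool.Agent.Helper47.SR (Grp mv lev wt Ew W IsInv up dn StarAt HalfStarAt)

theorem goal_STB : Goal_STB := by
  classical
  intro n K f G hG
  have mem_els : ∀ γ, γ ∈ els G ↔ γ ∈ G := fun γ => by simp [els]
  -- (5)
  have h5 : ∀ u v, #((els G).filter (fun γ => γ u = v)) ≤ K := by
    intro u v
    rcases ((els G).filter (fun γ => γ u = v)).eq_empty_or_nonempty with h | ⟨γ₀, h0⟩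
    · rw [h]; simp
    · rw [mem_filter, mem_els] at h0
      rw [← hG.st u]
      unfold stc
      refine Finset.card_le_card_of_injOn (fun γ => γ₀⁻¹ * γ) ?_ ?_
      · intro γ hγ
        rw [Finset.mem_coe, mem_filter, mem_els] at hγ
        rw [Finset.mem_coe]
        have h1 : γ₀⁻¹ * γ ∈ els G := (mem_els _).2 (G.mul_mem (G.inv_mem h0.1) hγ.1)
        have h2 : (γ₀⁻¹ * γ) u = u := by
          rw [Equiv.Perm.mul_apply, hγ.2, ← h0.2]; simp
        exact mem_filter.2 ⟨h1, h2⟩
      · intro γ _ γ' _ h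
        exact mul_left_cancel h
  have h2 : #(els G) = Nat.card G := by
    rw [Nat.card_eq_fintype_card, ← Fintype.card_coe]
    refine Fintype.card_congr ⟨fun x => ⟨x.1, (mem_els _).1 x.2⟩, fun x => ⟨x.1, (mem_els _).2 x.2⟩,
      fun x => rfl, fun x => rfl⟩
  have hfib : ∀ u : Fin n, #(els G) ≤ n * K := by
    intro u
    rw [Finset.card_eq_sum_card_fiberwise (f := fun γ : Equiv.Perm (Fin n) => γ u)
      (t := (univ : Finset (Fin n))) (fun γ _ => by simp)]
    calc ∑ v ∈ (univ : Finset (Fin n)), #((els G).filter (fun γ => γ u = v))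
        ≤ ∑ _v ∈ (univ : Finset (Fin n)), K := Finset.sum_le_sum fun v _ => h5 u v
      _ = n * K := by simp
  refine ⟨?_, h2, ?_, ?_, h5⟩
  · rw [← h2, Nat.mul_comm]
    exact hfib ⟨0, by have := hG.n1; omega⟩
  · intro A hA
    obtain ⟨u, hu⟩ := hA
    unfold wt
    have h1 : (1 : Equiv.Perm (Fin n)) ∉
        ((univ : Finset (Equiv.Perm (Fin n))).filter (fun γ => γ ∈ G ∧ γ ≠ 1 ∧ mv γ A = A)) := by
      simp
    rw [Nat.add_comm]
    have h3 : insert (1 : Equiv.Perm (Fin n))
        ((univ : Finset (Equiv.Perm (Fin n))).filter (fun γ => γ ∈ G ∧ γ ≠ 1 ∧ mv γ A = A)) ⊆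
        A.biUnion (fun v => (els G).filter (fun γ => γ u = v)) := by
      intro γ hγ
      rw [mem_biUnion]
      rcases mem_insert.1 hγ with rfl | hγ
      · exact ⟨u, hu, mem_filter.2 ⟨(mem_els _).2 G.one_mem, rfl⟩⟩
      · rw [mem_filter] at hγ
        refine ⟨γ u, ?_, mem_filter.2 ⟨(mem_els _).2 hγ.2.1, rfl⟩⟩
        have : γ u ∈ mv γ A := by
          simp only [mv, mem_map]
          exact ⟨u, hu, rfl⟩
        rw [hγ.2.2.2] at this
        exact this
    have h4 := Finset.card_le_card h3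
    rw [Finset.card_insert_of_notMem h1] at h4
    calc _ ≤ #(A.biUnion (fun v => (els G).filter (fun γ => γ u = v))) := h4
      _ ≤ ∑ v ∈ A, #((els G).filter (fun γ => γ u = v)) := Finset.card_biUnion_le
      _ ≤ ∑ _v ∈ A, K := Finset.sum_le_sum fun v _ => h5 u v
      _ = K * #A := by simp [Nat.mul_comm]
  · calc ∑ γ ∈ (els G).filter (fun γ => γ ≠ 1), fx γ ≤ ∑ γ ∈ els G, fx γ :=
          Finset.sum_le_sum_of_subset (Finset.filter_subset _ _)
      _ = ∑ γ ∈ els G, ∑ x : Fin n, if γ x = x then 1 else 0 := by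
          refine Finset.sum_congr rfl fun γ _ => ?_
          unfold fx
          rw [Finset.card_filter]
      _ = ∑ x : Fin n, ∑ γ ∈ els G, if γ x = x then 1 else 0 := Finset.sum_comm
      _ = ∑ x : Fin n, stc G x := by
          refine Finset.sum_congr rfl fun x _ => ?_
          unfold stc
          rw [Finset.card_filter]
      _ = ∑ _x : Fin n, K := Finset.sum_congr rfl fun x _ => hG.st x
      _ = K * n := by simp [Nat.mul_comm]
      _ ≤ K * n := le_rfl

end Pool.Agent.Helper31.NF
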